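import Mathlib

/-!
# The covering number of the Raisonnier ideal in the Sacks model

Suppose that every set of reals of size `𝔠` can be mapped continuously onto `2^ω`, that `𝔠` is regular and
that `cof(N) < 𝔠` (all this holds in the iterated perfect set model of Sacks and Miller). Then
`cof(N) < cov(R)` for the Raisonnier ideal `R`.

A member of `R` has no continuous image onto `2^ω`: given `f`, choose the partition so fast that the
values `f(x)` on the `m`-th block of a second partition are determined by `x ↾ d(m+1)`; if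
`x ↾ I_m ∈ B(m)` then there are at most `2^d(m) * m` possibilities, fewer than all. So in such a model
all members of `R` have size `< 𝔠`.
-/

set_option autoImplicit false

namespace Pool.Agent.Results.MP_6f516b_lc.SacksRaisonnier

open Set Topology MeasureTheory
open scoped Cardinal

/-- A partitioning real. -/
def IsPartitioning (d : ℕ → ℕ) : Prop := StrictMono d ∧ d 0 = 0

/-- `X` goes through some `d`-binary slalom `B`: `B m` is a set of at most `m` functions from
`[d m, d (m + 1))` to `{0, 1}`, and for all `x ∈ X` the restriction of `x` to `[d m, d (m + 1))` is in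
`B m` for all but finitely many `m`. -/
def GoesThrough (d : ℕ → ℕ) (X : Set (ℕ → Bool)) : Prop :=
  ∃ B : (m : ℕ) → Finset (Finset.Ico (d m) (d (m + 1)) → Bool),
    (∀ m, (B m).card ≤ m) ∧
      ∀ x ∈ X, ∃ k, ∀ m ≥ k, (fun i : Finset.Ico (d m) (d (m + 1)) => x i) ∈ B m

/-- `X` is in the Raisonnier ideal. -/
def Raisonnier (X : Set (ℕ → Bool)) : Prop :=
  ∀ d : ℕ → ℕ, IsPartitioning d → GoesThrough d X

/-- `cov(R)`: the least size of a family of members of the Raisonnier ideal with union `2^ω`. -/
noncomputable def covR : Cardinal.{0} :=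
  sInf {κ | ∃ F : Set (Set (ℕ → Bool)), #F = κ ∧ (∀ X ∈ F, Raisonnier X) ∧ ⋃₀ F = univ}

/-- The fair coin product measure on `2^ω`. -/
noncomputable def coin : Measure (ℕ → Bool) :=
  Measure.infinitePi fun _ => (PMF.uniformOfFintype Bool).toMeasure

/-- `cof(N)`: the least size of a family of null subsets of `2^ω` such that every null set is contained
in a member of the family. -/
noncomputable def cofN : Cardinal.{0} :=
  sInf {κ | ∃ F : Set (Set (ℕ → Bool)), #F = κ ∧ (∀ X ∈ F, coin X = 0) ∧
    ∀ A, coin A = 0 → ∃ X ∈ F, A ⊆ X}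

theorem exists_cyl {s : Set (ℕ → Bool)} (hs : IsOpen s) {x : ℕ → Bool} (hx : x ∈ s) :
    ∃ n, ∀ y : ℕ → Bool, (∀ i < n, y i = x i) → y ∈ s := by
  have hb := PiNat.isTopologicalBasis_cylinders (E := fun _ : ℕ => Bool)
  obtain ⟨t, ⟨z, n, rfl⟩, hxt, hts⟩ := hb.exists_subset_of_mem_open hx hs
  refine ⟨n, fun y hy => hts ?_⟩
  rw [PiNat.mem_cylinder_iff] at hxt ⊢
  exact fun i hi => (hy i hi).trans (hxt i hi)

theorem isOpen_cyl (x : ℕ → Bool) (n : ℕ) : IsOpen {y : ℕ → Bool | ∀ i < n, y i = x i} := by
  have h1 : {y : ℕ → Bool | ∀ i < n, y i = x i} = ⋂ i ∈ Finset.range n, {y | y i = x i} := by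
    ext y
    simp
  rw [h1]
  refine isOpen_biInter_finset fun i _ => ?_
  have h2 : Continuous fun y : ℕ → Bool => y i := continuous_apply i
  exact (isOpen_discrete ({x i} : Set Bool)).preimage h2

/-- uniform continuity -/
theorem modulus {f : (ℕ → Bool) → (ℕ → Bool)} (hf : Continuous f) (a : ℕ) :
    ∃ N, ∀ x y : ℕ → Bool, (∀ i < N, x i = y i) → ∀ i < a, f x i = f y i := by
  have h1 : ∀ x : ℕ → Bool, ∃ n, ∀ y : ℕ → Bool, (∀ i < n, y i = x i) →
      ∀ i < a, f y i = f x i := by
    intro x
    have h2 : IsOpen (f ⁻¹' {z | ∀ i < a, z i = f x i}) := (isOpen_cyl (f x) a).preimage hf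
    obtain ⟨n, hn⟩ := exists_cyl h2 (x := x) (fun i _ => rfl)
    exact ⟨n, hn⟩
  choose n hn using h1
  obtain ⟨t, -, ht⟩ := isCompact_univ.elim_nhds_subcover
    (fun x => {y : ℕ → Bool | ∀ i < n x, y i = x i})
    (fun x _ => (isOpen_cyl x (n x)).mem_nhds (fun i _ => rfl))
  refine ⟨t.sup n, fun x y hxy i hi => ?_⟩
  obtain ⟨z, hz, hxz⟩ := mem_iUnion₂.1 (ht (mem_univ x))
  have hyz : ∀ i < n z, y i = z i := fun j hj =>
    (hxy j (lt_of_lt_of_le hj (Finset.le_sup hz))).symm.trans (hxz j hj)
  rw [hn z x hxz i hi, hn z y hyz i hi]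

/-- the two partitions -/
def de (N : ℕ → ℕ) : ℕ → ℕ × ℕ
  | 0 => (0, 0)
  | m + 1 => (max ((de N m).1 + 1) (N ((de N m).2 + (de N m).1 + m + 1)),
      (de N m).2 + (de N m).1 + m + 1)

/-- A member of the Raisonnier ideal cannot be mapped continuously onto `2^ω`. -/
theorem not_onto {X : Set (ℕ → Bool)} (hX : Raisonnier X) {f : (ℕ → Bool) → (ℕ → Bool)}
    (hf : Continuous f) : f '' X ≠ univ := by
  classical
  intro honto
  choose N hN using fun a => modulus hf a
  let d : ℕ → ℕ := fun m => (de N m).1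
  let e : ℕ → ℕ := fun m => (de N m).2
  have hd0 : d 0 = 0 := rfl
  have hd : ∀ m, d (m + 1) = max (d m + 1) (N (e (m + 1))) := fun m => rfl
  have he : ∀ m, e (m + 1) = e m + d m + m + 1 := fun m => rfl
  have hdm : StrictMono d := strictMono_nat_of_lt_succ fun m => by
    rw [hd]
    exact lt_of_lt_of_le (Nat.lt_succ_self _) (le_max_left _ _)
  have hdN : ∀ m, N (e (m + 1)) ≤ d (m + 1) := fun m => by
    rw [hd]
    exact le_max_right _ _
  obtain ⟨B, hB, hXB⟩ := hX d ⟨hdm, hd0⟩
  -- the values on the `m`-th block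
  have h1 : ∀ m, ∃ u : Fin (d m + m + 1) → Bool, ∀ x : ℕ → Bool,
      (fun i : Finset.Ico (d m) (d (m + 1)) => x i) ∈ B m →
      (fun i : Fin (d m + m + 1) => f x (e m + i)) ≠ u := by
    intro m
    let g : (Fin (d m) → Bool) × (Finset.Ico (d m) (d (m + 1)) → Bool) → (ℕ → Bool) :=
      fun p i => if h : i < d m then p.1 ⟨i, h⟩ else
        if h : i ∈ Finset.Ico (d m) (d (m + 1)) then p.2 ⟨i, h⟩ else false
    let G : Finset (Fin (d m + m + 1) → Bool) :=
      ((Finset.univ : Finset (Fin (d m) → Bool)) ×ˢ B m).image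
        (fun p i => f (g p) (e m + i))
    have hG : G.card < Fintype.card (Fin (d m + m + 1) → Bool) := by
      have h2 : G.card ≤ 2 ^ d m * m := by
        refine Finset.card_image_le.trans ?_
        rw [Finset.card_product, Finset.card_univ, Fintype.card_fun, Fintype.card_fin,
          Fintype.card_bool]
        exact Nat.mul_le_mul_left _ (hB m)
      have h3 : Fintype.card (Fin (d m + m + 1) → Bool) = 2 ^ d m * 2 ^ (m + 1) := by
        rw [Fintype.card_fun, Fintype.card_fin, Fintype.card_bool, ← pow_add, add_assoc]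
      rw [h3]
      refine lt_of_le_of_lt h2 ?_
      refine Nat.mul_lt_mul_of_pos_left ?_ (by positivity)
      exact (Nat.lt_succ_self m).trans Nat.lt_two_pow_self
    obtain ⟨u, hu⟩ : ∃ u, u ∉ G := by
      by_contra hcon
      push Not at hcon
      have h4 : G = Finset.univ := Finset.eq_univ_iff_forall.2 hcon
      rw [h4, Finset.card_univ] at hG
      exact lt_irrefl _ hG
    refine ⟨u, fun x hx hxu => hu ?_⟩
    rw [← hxu]
    refine Finset.mem_image.2 ⟨(fun i => x i, fun i => x i),
      Finset.mem_product.2 ⟨Finset.mem_univ _, hx⟩, ?_⟩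
    funext i
    refine hN (e (m + 1)) _ _ (fun j hj => ?_) _ ?_
    · have hj' : j < d (m + 1) := lt_of_lt_of_le hj (hdN m)
      simp only [g]
      split_ifs with h5 h6
      · rfl
      · rfl
      · exact absurd (Finset.mem_Ico.2 ⟨not_lt.1 h5, hj'⟩) h6
    · have := i.2
      rw [he]
      omega
  choose u hu using h1
  -- the diagonal point
  have h2 : ∃ y : ℕ → Bool, ∀ m (i : Fin (d m + m + 1)), y (e m + i) = u m i := by
    have hem : StrictMono e := strictMono_nat_of_lt_succ fun m => by
      rw [he]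
      omega
    let y : ℕ → Bool := fun j => if h : ∃ m, ∃ i : Fin (d m + m + 1), e m + i = j then
      u h.choose h.choose_spec.choose else false
    refine ⟨y, fun m i => ?_⟩
    have h : ∃ m', ∃ i' : Fin (d m' + m' + 1), e m' + i' = e m + i := ⟨m, i, rfl⟩
    have h3 : ∀ m' (i' : Fin (d m' + m' + 1)), e m' + i' = e m + i → u m' i' = u m i := by
      intro m' i' hmi
      have hm : m' = m := by
        rcases lt_trichotomy m' m with h5 | h5 | h5
        · have h6 := hem.monotone (Nat.succ_le_of_lt h5)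
          have h7 := he m'
          have h8 := i'.2
          simp only [Nat.succ_eq_add_one] at h6
          omega
        · exact h5
        · have h6 := hem.monotone (Nat.succ_le_of_lt h5)
          have h7 := he m
          have h8 := i.2
          simp only [Nat.succ_eq_add_one] at h6
          omega
      subst hm
      have hi : i' = i := Fin.ext (by omega)
      rw [hi]
    simp only [y]
    rw [dif_pos h]
    exact h3 _ _ h.choose_spec.choose_spec
  obtain ⟨y, hy⟩ := h2
  have h3 : y ∈ f '' X := by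
    rw [honto]
    trivial
  obtain ⟨x, hx, hxy⟩ := h3
  obtain ⟨k, hk⟩ := hXB x hx
  refine hu k x (hk k le_rfl) ?_
  funext i
  rw [hxy, hy]

theorem singleton_mem (x : ℕ → Bool) : Raisonnier {x} := by
  classical
  intro d _
  refine ⟨fun m => if m = 0 then ∅ else {fun i : Finset.Ico (d m) (d (m + 1)) => x i},
    fun m => ?_, ?_⟩
  · by_cases hm : m = 0
    · simp [hm]
    · simp only [hm, if_false, Finset.card_singleton]
      omega
  · rintro y rfl
    refine ⟨1, fun m hm => ?_⟩
    have : m ≠ 0 := by omega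
    simp [this]

/-- If every set of reals of size `𝔠` can be mapped continuously onto `2^ω`, `𝔠` is regular and
`cof(N) < 𝔠`, then `cof(N) < cov(R)`. -/
theorem result
    (h1 : ∀ X : Set (ℕ → Bool), #X = 𝔠 → ∃ f : (ℕ → Bool) → (ℕ → Bool), Continuous f ∧ f '' X = univ)
    (h2 : (𝔠 : Cardinal.{0}).IsRegular) (h3 : cofN < 𝔠) : cofN < covR := by
  refine lt_of_lt_of_le h3 ?_
  refine le_csInf ⟨_, range (fun x : ℕ → Bool => ({x} : Set (ℕ → Bool))), rfl, ?_, ?_⟩ ?_
  · rintro _ ⟨x, rfl⟩
    exact singleton_mem x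
  · ext x
    simp
  · rintro κ ⟨F, rfl, hF, hFu⟩
    by_contra hcon
    push Not at hcon
    have h4 : ∀ X : F, #(X : Set (ℕ → Bool)) < 𝔠 := by
      intro X
      refine lt_of_le_of_ne ?_ ?_
      · have h5 : #(ℕ → Bool) = 𝔠 := by simp
        rw [← h5]
        exact Cardinal.mk_set_le _
      · intro h5
        obtain ⟨f, hf, hfX⟩ := h1 X h5
        exact not_onto (hF X X.2) hf hfX
    have h5 := (Cardinal.card_iUnion_lt_iff_forall_of_isRegular (t := fun X : F => (X : Set (ℕ → Bool)))
      h2 hcon).2 h4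
    rw [← sUnion_eq_iUnion, hFu, Cardinal.mk_univ] at h5
    simp at h5

end Pool.Agent.Results.MP_6f516b_lc.SacksRaisonnier
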